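import Pool.Agent.H98.AM.Targets

/-!
Module I1 of MP_29bb0a_mp: eigenvalues of a high level inside a band of a low level.
-/

open Polynomial
open scoped ComplexConjugate

noncomputable section

namespace Pool.Agent.H18.AM

open Pool.Agent.H98.AM

lemma bop_apply {N : ℕ} [NeZero N] (a : ZMod N → ℂ) (f : Rg N) (n : ZMod N) :
    bop a f n = a n * f (n - 1) + conj (a (n + 1)) * f (n + 1) := rfl

section spec

variable {H : Type} [NormedAddCommGroup H] [InnerProductSpace ℂ H] {ι : Type} [Fintype ι]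

lemma spec_inner {T : H →ₗ[ℂ] H} {u : OrthonormalBasis ι ℂ H} {ev : ι → ℝ} (h : IsEB T u ev)
    (f : H) (E : ℝ) (i : ι) :
    inner ℂ (u i) (T f - (E : ℂ) • f) = ((ev i - E : ℝ) : ℂ) * inner ℂ (u i) f := by
  classical
  have h1 : T f = ∑ j, (inner ℂ (u j) f * (ev j : ℂ)) • u j := by
    conv_lhs => rw [← u.sum_repr' f]
    rw [map_sum]
    refine Finset.sum_congr rfl fun j _ => ?_
    rw [map_smul, h j, smul_smul]
  rw [inner_sub_right, inner_smul_right, h1, inner_sum]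
  rw [Finset.sum_eq_single i]
  · rw [inner_smul_right, u.inner_eq_one]
    push_cast
    ring
  · intro j _ hj
    rw [inner_smul_right, u.inner_eq_zero (Ne.symm hj), mul_zero]
  · intro hi
    exact absurd (Finset.mem_univ i) hi

lemma spec_norm {T : H →ₗ[ℂ] H} {u : OrthonormalBasis ι ℂ H} {ev : ι → ℝ} (h : IsEB T u ev)
    (f : H) (E : ℝ) :
    ‖T f - (E : ℂ) • f‖ ^ 2 = ∑ i, |ev i - E| ^ 2 * ‖inner ℂ (u i) f‖ ^ 2 := by
  rw [← u.sum_sq_norm_inner_right]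
  refine Finset.sum_congr rfl fun i _ => ?_
  rw [spec_inner h, norm_mul, mul_pow, Complex.norm_real, Real.norm_eq_abs]

lemma spec_le {T : H →ₗ[ℂ] H} {u : OrthonormalBasis ι ℂ H} {ev : ι → ℝ} (h : IsEB T u ev)
    (f : H) (E d : ℝ) (hd : 0 ≤ d) (hf : ∀ i, inner ℂ (u i) f ≠ 0 → |ev i - E| ≤ d) :
    ‖T f - (E : ℂ) • f‖ ≤ d * ‖f‖ := by
  apply le_of_sq_le_sq _ (by positivity)
  rw [spec_norm h, mul_pow, ← u.sum_sq_norm_inner_right f, Finset.mul_sum]
  refine Finset.sum_le_sum fun i _ => ?_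
  by_cases h0 : inner ℂ (u i) f = 0
  · rw [h0]; simp
  · have := hf i h0
    gcongr

lemma spec_ge {T : H →ₗ[ℂ] H} {u : OrthonormalBasis ι ℂ H} {ev : ι → ℝ} (h : IsEB T u ev)
    (f : H) (E d : ℝ) (hd : 0 ≤ d) (hf : ∀ i, inner ℂ (u i) f ≠ 0 → d ≤ |ev i - E|) :
    d * ‖f‖ ≤ ‖T f - (E : ℂ) • f‖ := by
  apply le_of_sq_le_sq _ (norm_nonneg _)
  rw [spec_norm h, mul_pow, ← u.sum_sq_norm_inner_right f, Finset.mul_sum]
  refine Finset.sum_le_sum fun i _ => ?_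
  by_cases h0 : inner ℂ (u i) f = 0
  · rw [h0]; simp
  · have := hf i h0
    gcongr

end spec

/-! ### phases -/

lemma ex_add (s t : ℝ) : ex (s + t) = ex s * ex t := by
  unfold ex
  rw [← Complex.exp_add]
  congr 1
  push_cast
  ring

lemma ex_int (k : ℤ) : ex k = 1 := by
  unfold ex
  rw [← Complex.exp_int_mul_two_pi_mul_I k]
  congr 1
  push_cast
  ring

lemma norm_ex (t : ℝ) : ‖ex t‖ = 1 := by
  unfold ex
  rw [show (2 * Real.pi * t * Complex.I : ℂ) = ((2 * Real.pi * t : ℝ) : ℂ) * Complex.I by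
    push_cast; ring]
  exact Complex.norm_exp_ofReal_mul_I _

lemma ex_sub_le (s t : ℝ) : ‖ex s - ex t‖ ≤ 2 * Real.pi * |s - t| := by
  have h1 : ex s - ex t = ex t * (ex (s - t) - 1) := by
    rw [mul_sub, ← ex_add, mul_one]
    congr 2
    ring
  rw [h1, norm_mul, norm_ex, one_mul]
  have h2 := Real.norm_exp_I_mul_ofReal_sub_one_le (x := 2 * Real.pi * (s - t))
  rw [Real.norm_eq_abs, abs_mul, abs_of_pos Real.two_pi_pos] at h2
  refine le_trans (le_of_eq ?_) h2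
  congr 2
  unfold ex
  congr 1
  push_cast
  ring

lemma fb_cast (p : ℤ) (s : ℕ) [NeZero s] (n : ℕ) :
    fb p s 0 1 (n : ZMod s) = bnd (p / s) 0 (n : ℤ) := by
  unfold fb
  rw [ite_self, one_mul, ZMod.val_natCast]
  unfold bnd
  congr 1
  have hs : (s : ℝ) ≠ 0 := Nat.cast_ne_zero.2 (NeZero.ne s)
  have hn : n = n % s + s * (n / s) := (Nat.mod_add_div n s).symm
  generalize n % s = a at hn ⊢
  generalize n / s = b at hn
  subst hn
  have h2 : (((a + s * b : ℕ) : ℤ) : ℝ) * (p / s) + 0 =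
      (((a : ℤ) : ℝ) * (p / s) + 0) + ((b * p : ℤ) : ℝ) := by
    push_cast
    field_simp
    ring
  rw [h2, ex_add (((a : ℤ) : ℝ) * (p / s) + 0) ((b * p : ℤ) : ℝ), ex_int, mul_one]

/-! ### sums -/

lemma sum_ring {N : ℕ} [NeZero N] (F : ZMod N → ℝ) :
    ∑ n, F n = ∑ k ∈ Finset.range N, F ((k : ℕ) : ZMod N) := by
  refine Finset.sum_nbij' (fun n => n.val) (fun k => ((k : ℕ) : ZMod N)) ?_ ?_ ?_ ?_ ?_
  · intro n _
    exact Finset.mem_range.2 (ZMod.val_lt n)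
  · intro k _
    exact Finset.mem_univ _
  · intro n _
    exact ZMod.natCast_zmod_val n
  · intro k hk
    exact ZMod.val_natCast_of_lt (Finset.mem_range.1 hk)
  · intro n _
    rw [ZMod.natCast_zmod_val]

lemma sum_blocks (F : ℕ → ℝ) (m x : ℕ) :
    ∑ k ∈ Finset.range (m * x), F k =
      ∑ a ∈ Finset.range m, ∑ k ∈ Finset.range x, F (a * x + k) := by
  induction m with
  | zero => simp
  | succ m ih => rw [Nat.succ_mul, Finset.sum_range_add, ih, Finset.sum_range_succ]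

/-- evaluation at a site -/
def site (R : ℕ) [NeZero R] (n : ℕ) : Rg R →ₗ[ℂ] ℂ where
  toFun f := f ((n : ℕ) : ZMod R)
  map_add' _ _ := rfl
  map_smul' _ _ := rfl

/-- restriction to a block -/
def Bl (R x : ℕ) [NeZero R] [NeZero x] (a : ℕ) : Rg R →ₗ[ℂ] Rg x where
  toFun f := WithLp.toLp 2 fun k => f ((a * x + k.val : ℕ) : ZMod R)
  map_add' _ _ := rfl
  map_smul' _ _ := rfl

lemma Bl_apply (R x : ℕ) [NeZero R] [NeZero x] (a : ℕ) (f : Rg R) (k : ZMod x) :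
    Bl R x a f k = f ((a * x + k.val : ℕ) : ZMod R) := rfl

lemma norm_Bl (R x : ℕ) [NeZero R] [NeZero x] (a : ℕ) (f : Rg R) :
    ‖Bl R x a f‖ ^ 2 = ∑ k ∈ Finset.range x, ‖f ((a * x + k : ℕ) : ZMod R)‖ ^ 2 := by
  rw [EuclideanSpace.norm_sq_eq, sum_ring]
  refine Finset.sum_congr rfl fun k hk => ?_
  rw [Bl_apply, ZMod.val_natCast_of_lt (Finset.mem_range.1 hk)]

lemma norm_ring (R : ℕ) [NeZero R] (f : Rg R) :
    ‖f‖ ^ 2 = ∑ k ∈ Finset.range R, ‖f ((k : ℕ) : ZMod R)‖ ^ 2 := by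
  rw [EuclideanSpace.norm_sq_eq, sum_ring]

lemma sum_norm_Bl_le (R x : ℕ) [NeZero R] [NeZero x] (m : ℕ) (hm : m * x ≤ R) (f : Rg R) :
    ∑ a ∈ Finset.range m, ‖Bl R x a f‖ ^ 2 ≤ ‖f‖ ^ 2 := by
  rw [norm_ring, Finset.sum_congr rfl fun a _ => norm_Bl R x a f,
    ← sum_blocks (fun k => ‖f ((k : ℕ) : ZMod R)‖ ^ 2)]
  exact Finset.sum_le_sum_of_subset_of_nonneg
    (Finset.range_subset_range.2 hm) fun _ _ _ => by positivity

lemma sum_norm_Bl_eq (R x : ℕ) [NeZero R] [NeZero x] (m : ℕ) (hm : m * x ≤ R)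
    (hm2 : R < m * x + x) (f : Rg R)
    (h0 : ∀ k < x, f ((m * x + k : ℕ) : ZMod R) = 0) :
    ‖f‖ ^ 2 = ∑ a ∈ Finset.range m, ‖Bl R x a f‖ ^ 2 := by
  rw [norm_ring, Finset.sum_congr rfl fun a _ => norm_Bl R x a f,
    ← sum_blocks (fun k => ‖f ((k : ℕ) : ZMod R)‖ ^ 2)]
  have key : ∀ φ : ℕ → ℝ, (∀ k < x, φ (m * x + k) = 0) →
      ∑ k ∈ Finset.range R, φ k = ∑ k ∈ Finset.range (m * x), φ k := by
    intro φ hφ
    obtain ⟨t, ht⟩ := Nat.exists_eq_add_of_le hm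
    rw [ht, Finset.sum_range_add]
    have h1 : ∑ k ∈ Finset.range t, φ (m * x + k) = 0 := by
      refine Finset.sum_eq_zero fun k hk => ?_
      exact hφ k (by have := Finset.mem_range.1 hk; omega)
    rw [h1, add_zero]
  exact key (fun k => ‖f ((k : ℕ) : ZMod R)‖ ^ 2) fun k hk => by
    show ‖f ((m * x + k : ℕ) : ZMod R)‖ ^ 2 = 0
    rw [h0 k hk]
    simp

lemma bop_add_sub {N : ℕ} [NeZero N] (a b : ZMod N → ℂ) (f : Rg N) :
    bop a f = bop b f + bop (fun n => a n - b n) f := by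
  ext n
  show bop a f n = bop b f n + bop (fun n => a n - b n) f n
  rw [bop_apply, bop_apply, bop_apply, map_sub]
  ring

/-- the bonds of the block -/
def ba (px : ℤ) (x : ℕ) [NeZero x] (pR : ℤ) (R : ℕ) (a : ℕ) (k : ZMod x) : ℂ :=
  if k = 0 then fb px x ((a * x : ℕ) * (pR / R)) 1 0
  else bnd (pR / R) 0 ((a * x + k.val : ℕ) : ℤ)

lemma fb_ba_le (px : ℤ) (x : ℕ) [NeZero x] (pR : ℤ) (R : ℕ) (a : ℕ) (C0 : ℝ)
    (h : |(px / x : ℝ) - pR / R| ≤ C0 / x ^ 3) (k : ZMod x) :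
    ‖fb px x ((a * x : ℕ) * (pR / R)) 1 k - ba px x pR R a k‖ ≤ 2 * Real.pi * (C0 / x ^ 2) := by
  have hx : (0 : ℝ) < x := by
    have := Nat.pos_of_ne_zero (NeZero.ne x)
    exact_mod_cast this
  have hC : 0 ≤ C0 / x ^ 3 := (abs_nonneg _).trans h
  have hC2 : 0 ≤ C0 / x ^ 2 := by
    have : C0 / (x : ℝ) ^ 2 = C0 / x ^ 3 * x := by field_simp
    rw [this]
    positivity
  unfold ba
  split_ifs with hk
  · rw [hk, sub_self, norm_zero]
    positivity
  · unfold fb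
    rw [if_neg hk, one_mul]
    unfold bnd
    have h1 : (1 - ex (((k.val : ℤ) : ℝ) * (px / x) + ((a * x : ℕ) : ℝ) * (pR / R)) -
        (1 - ex ((((a * x + k.val : ℕ) : ℤ) : ℝ) * (pR / R) + 0)) : ℂ) =
        ex ((((a * x + k.val : ℕ) : ℤ) : ℝ) * (pR / R) + 0) -
          ex (((k.val : ℤ) : ℝ) * (px / x) + ((a * x : ℕ) : ℝ) * (pR / R)) := by ring
    rw [h1]
    refine (ex_sub_le _ _).trans ?_
    have h2 : (((a * x + k.val : ℕ) : ℤ) : ℝ) * (pR / R) + 0 -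
        (((k.val : ℤ) : ℝ) * (px / x) + ((a * x : ℕ) : ℝ) * (pR / R)) =
        -((k.val : ℝ) * ((px / x : ℝ) - pR / R)) := by
      push_cast
      ring
    rw [h2, abs_neg, abs_mul, abs_of_nonneg (Nat.cast_nonneg _)]
    have h3 : (k.val : ℝ) ≤ x := by
      have := (ZMod.val_lt k).le
      exact_mod_cast this
    have h4 : (k.val : ℝ) * |(px / x : ℝ) - pR / R| ≤ C0 / x ^ 2 := by
      calc (k.val : ℝ) * |(px / x : ℝ) - pR / R| ≤ x * (C0 / x ^ 3) := by gcongr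
        _ = C0 / x ^ 2 := by field_simp
    have := Real.pi_pos
    gcongr

lemma block_eq (px : ℤ) (x : ℕ) [NeZero x] (pR : ℤ) (R : ℕ) [NeZero R] (hx : 3 ≤ x)
    (f : Rg R) (m : ℕ) (hz0 : ∀ a < m, f ((a * x : ℕ) : ZMod R) = 0)
    (hz1 : ∀ a < m, f ((a * x + (x - 1) : ℕ) : ZMod R) = 0)
    (hz3 : f ((m * x : ℕ) : ZMod R) = 0) (a : ℕ) (ha : a < m) :
    Bl R x a (Fi pR R 0 1 f) = bop (ba px x pR R a) (Bl R x a f) := by
  have hfb : ∀ n : ℕ, fb pR R 0 1 (n : ZMod R) = bnd (pR / R) 0 (n : ℤ) := fb_cast pR R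
  have hsucc : ∀ n : ℕ, ((n : ℕ) : ZMod R) + 1 = ((n + 1 : ℕ) : ZMod R) := fun n => by push_cast; rfl
  have hpred : ∀ n : ℕ, 1 ≤ n → ((n : ℕ) : ZMod R) - 1 = ((n - 1 : ℕ) : ZMod R) := fun n hn => by
    rw [Nat.cast_sub hn, Nat.cast_one]
  have hF : ∀ n : ℕ, 1 ≤ n → Fi pR R 0 1 f ((n : ℕ) : ZMod R) =
      bnd (pR / R) 0 (n : ℤ) * f ((n - 1 : ℕ) : ZMod R) +
      conj (bnd (pR / R) 0 ((n + 1 : ℕ) : ℤ)) * f ((n + 1 : ℕ) : ZMod R) := by
    intro n hn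
    show bop (fb pR R 0 1) f _ = _
    rw [bop_apply, hfb, hpred n hn, hsucc, hfb]
  have hF0 : Fi pR R 0 1 f ((0 : ℕ) : ZMod R) =
      conj (bnd (pR / R) 0 ((1 : ℕ) : ℤ)) * f ((1 : ℕ) : ZMod R) := by
    show bop (fb pR R 0 1) f _ = _
    rw [bop_apply, hfb, hsucc, hfb]
    have : bnd (pR / R) 0 ((0 : ℕ) : ℤ) = 0 := by
      unfold bnd
      rw [show (((0 : ℕ) : ℤ) : ℝ) * (pR / R) + 0 = ((0 : ℤ) : ℝ) by simp, ex_int]
      simp
    rw [this, zero_mul, zero_add]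
  have hnext : f ((a * x + x : ℕ) : ZMod R) = 0 := by
    rw [← Nat.succ_mul]
    rcases Nat.lt_or_ge (a + 1) m with h | h
    · exact hz0 _ h
    · have : a + 1 = m := by omega
      rw [Nat.succ_eq_add_one, this]
      exact hz3
  ext k
  show Bl R x a (Fi pR R 0 1 f) k = bop (ba px x pR R a) (Bl R x a f) k
  rw [bop_apply, Bl_apply, Bl_apply, Bl_apply]
  obtain ⟨k', hk', rfl⟩ : ∃ k' : ℕ, k' < x ∧ k = (k' : ZMod x) :=
    ⟨k.val, ZMod.val_lt k, (ZMod.natCast_zmod_val k).symm⟩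
  have hv : ((k' : ℕ) : ZMod x).val = k' := ZMod.val_natCast_of_lt hk'
  have hs1 : ((k' : ℕ) : ZMod x) + 1 = ((k' + 1 : ℕ) : ZMod x) := by push_cast; rfl
  have ne0 : ∀ j : ℕ, 1 ≤ j → j < x → ((j : ℕ) : ZMod x) ≠ 0 := by
    intro j hj hjx h0
    have := congrArg ZMod.val h0
    rw [ZMod.val_natCast_of_lt hjx, ZMod.val_zero] at this
    omega
  rw [hv, hs1]
  rcases Nat.eq_zero_or_pos k' with rfl | hk0
  · -- first site
    have h1 : f ((a * x + (((0 : ℕ) : ZMod x) - 1).val : ℕ) : ZMod R) = 0 := by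
      have h2 : (((0 : ℕ) : ZMod x) - 1) = ((x - 1 : ℕ) : ZMod x) := by
        rw [Nat.cast_sub (by omega), ZMod.natCast_self]
        simp
      rw [h2, ZMod.val_natCast_of_lt (by omega)]
      exact hz1 a ha
    have h3 : ba px x pR R a ((0 + 1 : ℕ) : ZMod x) =
        bnd (pR / R) 0 ((a * x + 1 : ℕ) : ℤ) := by
      unfold ba
      rw [if_neg (ne0 _ (by omega) (by omega)), ZMod.val_natCast_of_lt (by omega)]
    rw [h1, mul_zero, zero_add, h3, ZMod.val_natCast_of_lt (show 0 + 1 < x by omega), add_zero]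
    rcases Nat.eq_zero_or_pos a with rfl | ha0
    · simp only [Nat.zero_mul, Nat.zero_add]
      exact hF0
    · have h4 : 1 ≤ a * x := Nat.mul_pos ha0 (by omega)
      rw [hF _ h4]
      have h5 : f ((a * x - 1 : ℕ) : ZMod R) = 0 := by
        have h6 : a * x - 1 = (a - 1) * x + (x - 1) := by
          obtain ⟨b, rfl⟩ := Nat.exists_eq_add_of_le' ha0
          rw [Nat.succ_mul, Nat.add_sub_cancel]
          omega
        rw [h6]
        exact hz1 _ (by omega)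
      rw [h5, mul_zero, zero_add, Nat.zero_add]
  · have hp1 : ((k' : ℕ) : ZMod x) - 1 = ((k' - 1 : ℕ) : ZMod x) := by
      rw [Nat.cast_sub hk0, Nat.cast_one]
    have h3 : ba px x pR R a ((k' : ℕ) : ZMod x) =
        bnd (pR / R) 0 ((a * x + k' : ℕ) : ℤ) := by
      unfold ba
      rw [if_neg (ne0 _ (by omega) (by omega)), hv]
    rw [hF _ (by omega), hp1, ZMod.val_natCast_of_lt (show k' - 1 < x by omega), h3,
      show a * x + k' - 1 = a * x + (k' - 1) by omega]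
    congr 1
    rcases Nat.lt_or_ge (k' + 1) x with hlt | hge
    · have h4 : ba px x pR R a ((k' + 1 : ℕ) : ZMod x) =
          bnd (pR / R) 0 ((a * x + (k' + 1) : ℕ) : ℤ) := by
        unfold ba
        rw [if_neg (ne0 _ (by omega) (by omega)), ZMod.val_natCast_of_lt hlt]
      rw [h4, ZMod.val_natCast_of_lt hlt]
      rfl
    · have h4 : k' + 1 = x := by omega
      have h5 : f ((a * x + k' + 1 : ℕ) : ZMod R) = 0 := by
        rw [show a * x + k' + 1 = a * x + x by omega]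
        exact hnext
      have h6 : f ((a * x + ((k' + 1 : ℕ) : ZMod x).val : ℕ) : ZMod R) = 0 := by
        rw [h4, ZMod.natCast_self, ZMod.val_zero, add_zero]
        exact hz0 a ha
      rw [h5, h6, mul_zero, mul_zero]

lemma norm_bnd_le (β θ : ℝ) (n : ℤ) : ‖bnd β θ n‖ ≤ 2 := by
  unfold bnd
  refine (norm_sub_le _ _).trans ?_
  rw [norm_ex, norm_one]
  norm_num

lemma abs_tt_le (s : ℕ) (θ : ℝ) (ζ : ℂ) (hζ : ‖ζ‖ = 1) : |tt s θ ζ| ≤ 4 := by
  unfold tt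
  rw [abs_mul, abs_two]
  have h1 := Complex.abs_re_le_norm (ζ * (1 - ex (s * θ)))
  rw [norm_mul, hζ, one_mul] at h1
  have h2 : ‖(1 : ℂ) - ex (s * θ)‖ ≤ 2 := by
    refine (norm_sub_le _ _).trans ?_
    rw [norm_ex, norm_one]
    norm_num
  linarith

lemma count_aux (hB4 : T_B4) (hC1 : T_C1) (C0 : ℝ) (hC0 : 1 ≤ C0) (px : ℤ) (x : ℕ) (pR : ℤ)
    (R : ℕ) [NeZero x] [NeZero R] (hcx : IsCoprime px (x : ℤ)) (hx : 3 ≤ x)
    (hdist : |(px / x : ℝ) - pR / R| ≤ C0 / x ^ 3) (lo hi : ℝ) (hlh : lo ≤ hi)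
    (hone : ∀ t : ℝ, |t| ≤ 4 → ∀ r : Fin x → ℝ,
      (∀ z : ℂ, aeval z (Dl px x) - t = ∏ i, (z - r i)) →
      ∀ i j, r i ∈ Set.Icc (lo - 13 * C0 / x ^ 2) (hi + 13 * C0 / x ^ 2) →
      r j ∈ Set.Icc (lo - 13 * C0 / x ^ 2) (hi + 13 * C0 / x ^ 2) → i = j)
    (u : OrthonormalBasis (Fin R) ℂ (Rg R)) (ev : Fin R → ℝ) (hEB : IsEB (Fi pR R 0 1) u ev) :
    Fintype.card {i : Fin R // lo ≤ ev i ∧ ev i ≤ hi} ≤ 3 * (R / x) + x := by
  classical
  by_contra hcon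
  push Not at hcon
  set m := R / x with hm
  have hmx : m * x ≤ R := Nat.div_mul_le_self R x
  have hlt : R < m * x + x := by
    have := Nat.lt_mul_div_succ R (show 0 < x by omega)
    rw [← hm] at this
    calc R < x * (m + 1) := this
      _ = m * x + x := by ring
  have hex : ∀ a : ℕ, ∃ (v : OrthonormalBasis (Fin x) ℂ (Rg x)) (w : Fin x → ℝ),
      IsEB (Fi px x ((a * x : ℕ) * (pR / R)) 1) v w := fun a => (hB4 x _).1
  choose v w hvw using hex
  have hwin : ∀ a i j, w a i ∈ Set.Icc (lo - 13 * C0 / x ^ 2) (hi + 13 * C0 / x ^ 2) →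
      w a j ∈ Set.Icc (lo - 13 * C0 / x ^ 2) (hi + 13 * C0 / x ^ 2) → i = j := by
    intro a
    refine hone (tt x ((a * x : ℕ) * (pR / R)) 1) (abs_tt_le _ _ _ (by simp)) (w a) fun z => ?_
    exact (hC1 px x _ 1 (Fin x) (v a) (w a) hcx hx (by simp) (hvw a) z).symm
  have hzex : ∀ a, ∃ z : Rg x, ∀ i,
      w a i ∈ Set.Icc (lo - 13 * C0 / x ^ 2) (hi + 13 * C0 / x ^ 2) → v a i = z := by
    intro a
    by_cases h : ∃ i, w a i ∈ Set.Icc (lo - 13 * C0 / x ^ 2) (hi + 13 * C0 / x ^ 2)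
    · obtain ⟨i, hi⟩ := h
      exact ⟨v a i, fun j hj => by rw [hwin a i j hi hj]⟩
    · exact ⟨0, fun i hi => absurd ⟨i, hi⟩ h⟩
  choose z hz using hzex
  let ci : (Fin m × Fin 3) ⊕ Fin x → (Rg R →ₗ[ℂ] ℂ) := Sum.elim
    (fun q => if q.2 = 0 then site R (q.1 * x) else if q.2 = 1 then site R (q.1 * x + (x - 1))
      else (innerₛₗ ℂ (z q.1)) ∘ₗ Bl R x q.1) (fun k => site R (m * x + k))
  let Lc : ({i : Fin R // lo ≤ ev i ∧ ev i ≤ hi} → ℂ) →ₗ[ℂ] Rg R :=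
    Fintype.linearCombination ℂ (fun i : {i : Fin R // lo ≤ ev i ∧ ev i ≤ hi} => u i.1)
  let L : ({i : Fin R // lo ≤ ev i ∧ ev i ≤ hi} → ℂ) →ₗ[ℂ] ((Fin m × Fin 3) ⊕ Fin x → ℂ) :=
    LinearMap.pi ci ∘ₗ Lc
  have hker : LinearMap.ker L ≠ ⊥ := by
    apply LinearMap.ker_ne_bot_of_finrank_lt
    rw [Module.finrank_fintype_fun_eq_card, Module.finrank_fintype_fun_eq_card]
    simp only [Fintype.card_sum, Fintype.card_prod, Fintype.card_fin]
    omega
  obtain ⟨c, hc, hc0⟩ := Submodule.exists_mem_ne_zero_of_ne_bot hker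
  set f : Rg R := Lc c with hf
  have hfsum : f = ∑ i : {i : Fin R // lo ≤ ev i ∧ ev i ≤ hi}, c i • u i.1 := by
    rw [hf]
    exact Fintype.linearCombination_apply ℂ _ c
  have hLf : ∀ q, ci q f = 0 := by
    intro q
    have := congrFun (LinearMap.mem_ker.1 hc) q
    exact this
  have hf0 : f ≠ 0 := by
    intro h0
    apply hc0
    have hli : LinearIndependent ℂ (fun i : {i : Fin R // lo ≤ ev i ∧ ev i ≤ hi} => u i.1) :=
      u.orthonormal.linearIndependent.comp _ Subtype.val_injective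
    rw [Fintype.linearIndependent_iff] at hli
    funext i
    exact hli c (hfsum ▸ h0) i
  have hz0 : ∀ a < m, f ((a * x : ℕ) : ZMod R) = 0 := by
    intro a ha
    have := hLf (Sum.inl (⟨a, ha⟩, 0))
    exact this
  have hz1 : ∀ a < m, f ((a * x + (x - 1) : ℕ) : ZMod R) = 0 := by
    intro a ha
    have := hLf (Sum.inl (⟨a, ha⟩, 1))
    exact this
  have hz2 : ∀ a < m, inner ℂ (z a) (Bl R x a f) = 0 := by
    intro a ha
    have := hLf (Sum.inl (⟨a, ha⟩, 2))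
    exact this
  have hz3 : ∀ k < x, f ((m * x + k : ℕ) : ZMod R) = 0 := by
    intro k hk
    have := hLf (Sum.inr ⟨k, hk⟩)
    exact this
  set mid := (lo + hi) / 2 with hmid
  set h := (hi - lo) / 2 with hh
  have hh0 : 0 ≤ h := by rw [hh]; linarith
  have hin : ∀ i, inner ℂ (u i) f ≠ 0 → lo ≤ ev i ∧ ev i ≤ hi := by
    intro i hi'
    by_contra hcon2
    apply hi'
    rw [hfsum, inner_sum]
    refine Finset.sum_eq_zero fun j _ => ?_
    rw [inner_smul_right, u.inner_eq_zero, mul_zero]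
    rintro rfl
    exact hcon2 j.2
  have hH : ‖Fi pR R 0 1 f - (mid : ℂ) • f‖ ≤ h * ‖f‖ := by
    refine spec_le hEB f mid h hh0 fun i hi' => ?_
    obtain ⟨h1, h2⟩ := hin i hi'
    rw [abs_le]
    constructor <;> linarith
  set g := Fi pR R 0 1 f - (mid : ℂ) • f with hg
  have hxpos : (0 : ℝ) < x := by
    have : 0 < x := by omega
    exact_mod_cast this
  set κ := 13 * C0 / (x : ℝ) ^ 2 - 2 * (2 * Real.pi * (C0 / x ^ 2)) with hκ
  have hκ0 : 0 < κ := by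
    have h1 : κ = (13 - 4 * Real.pi) * (C0 / x ^ 2) := by rw [hκ]; ring
    rw [h1]
    have h2 : Real.pi < 3.15 := Real.pi_lt_d2
    have h3 : 0 < C0 / (x : ℝ) ^ 2 := by positivity
    have h4 : 0 < 13 - 4 * Real.pi := by linarith
    positivity
  have hblock : ∀ a < m, (h + κ) ^ 2 * ‖Bl R x a f‖ ^ 2 ≤ ‖Bl R x a g‖ ^ 2 := by
    intro a ha
    have h1 : Bl R x a g = bop (ba px x pR R a) (Bl R x a f) - (mid : ℂ) • Bl R x a f := by
      rw [hg, map_sub, map_smul, block_eq px x pR R hx f m hz0 hz1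
        (by simpa using hz3 0 (by omega)) a ha]
    have h2 : (h + 13 * C0 / x ^ 2) * ‖Bl R x a f‖ ≤
        ‖Fi px x ((a * x : ℕ) * (pR / R)) 1 (Bl R x a f) - (mid : ℂ) • Bl R x a f‖ := by
      refine spec_ge (hvw a) _ mid _ (by positivity) fun i hi' => ?_
      by_contra hcon2
      push Not at hcon2
      apply hi'
      rw [hz a i, hz2 a ha]
      rw [abs_lt] at hcon2
      constructor <;> linarith
    have h3 : ‖bop (fun n => fb px x ((a * x : ℕ) * (pR / R)) 1 n - ba px x pR R a n)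
        (Bl R x a f)‖ ≤ 2 * (2 * Real.pi * (C0 / x ^ 2)) * ‖Bl R x a f‖ :=
      ((hB4 x _).2 _ fun n => fb_ba_le px x pR R a C0 hdist n).1 _
    have h4 : Fi px x ((a * x : ℕ) * (pR / R)) 1 (Bl R x a f) - (mid : ℂ) • Bl R x a f =
        Bl R x a g + bop (fun n => fb px x ((a * x : ℕ) * (pR / R)) 1 n - ba px x pR R a n)
        (Bl R x a f) := by
      rw [h1]
      have h5 := bop_add_sub (fb px x ((a * x : ℕ) * (pR / R)) 1) (ba px x pR R a) (Bl R x a f)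
      show bop (fb px x ((a * x : ℕ) * (pR / R)) 1) (Bl R x a f) - _ = _
      rw [h5]
      abel
    rw [h4] at h2
    have h6 : (h + κ) * ‖Bl R x a f‖ ≤ ‖Bl R x a g‖ := by
      have h7 := norm_add_le (Bl R x a g) (bop (fun n => fb px x ((a * x : ℕ) * (pR / R)) 1 n -
        ba px x pR R a n) (Bl R x a f))
      have h8 : (h + κ) * ‖Bl R x a f‖ = (h + 13 * C0 / x ^ 2) * ‖Bl R x a f‖ -
          2 * (2 * Real.pi * (C0 / x ^ 2)) * ‖Bl R x a f‖ := by rw [hκ]; ring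
      linarith
    rw [← mul_pow]
    have h9 : 0 ≤ (h + κ) * ‖Bl R x a f‖ := by positivity
    gcongr
  have hsum : (h + κ) ^ 2 * ‖f‖ ^ 2 ≤ h ^ 2 * ‖f‖ ^ 2 := by
    calc (h + κ) ^ 2 * ‖f‖ ^ 2 = ∑ a ∈ Finset.range m, (h + κ) ^ 2 * ‖Bl R x a f‖ ^ 2 := by
          rw [sum_norm_Bl_eq R x m hmx hlt f hz3, Finset.mul_sum]
      _ ≤ ∑ a ∈ Finset.range m, ‖Bl R x a g‖ ^ 2 :=
          Finset.sum_le_sum fun a ha => hblock a (Finset.mem_range.1 ha)
      _ ≤ ‖g‖ ^ 2 := sum_norm_Bl_le R x m hmx g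
      _ ≤ (h * ‖f‖) ^ 2 := by
          have := norm_nonneg g
          gcongr
      _ = h ^ 2 * ‖f‖ ^ 2 := by ring
  have hfn : 0 < ‖f‖ ^ 2 := by
    have := norm_pos_iff.2 hf0
    positivity
  have h1 : (h + κ) ^ 2 ≤ h ^ 2 := le_of_mul_le_mul_right hsum hfn
  nlinarith

theorem i1 (hB4 : T_B4) (hC1 : T_C1) : T_I1 := by
  classical
  intro C0 hC0
  refine ⟨3 + C0, by linarith, ?_⟩
  intro px x pR R hcx hcR hx hR hdist hsq lo hi hone
  have hxne : NeZero x := ⟨by omega⟩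
  have hRne : NeZero R := ⟨by omega⟩
  have hxpos : (0 : ℝ) < x := by
    have : 0 < x := by omega
    exact_mod_cast this
  by_cases hlh : lo ≤ hi
  swap
  · have h1 : (rts (Dl pR R)).filter (fun e => lo ≤ e ∧ e ≤ hi) = ∅ := by
      rw [Finset.filter_eq_empty_iff]
      rintro e _ ⟨h1, h2⟩
      exact hlh (h1.trans h2)
    rw [h1, Finset.card_empty, Nat.cast_zero]
    positivity
  obtain ⟨⟨u, ev, hEB'⟩, -⟩ := hB4 R (fb pR R 0 1)
  have hEB : IsEB (Fi pR R 0 1) u ev := hEB'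
  have hroot : ∀ e ∈ rts (Dl pR R), ∃ i, ev i = e := by
    intro e he
    have h1 := hC1 pR R 0 1 (Fin R) u ev hcR hR (by simp) hEB (e : ℂ)
    have h2 : tt R 0 1 = 0 := by
      unfold tt
      rw [mul_zero, show (0 : ℝ) = ((0 : ℤ) : ℝ) by simp, ex_int]
      simp
    have h3 : (Dl pR R).eval e = 0 := by
      have := Multiset.mem_toFinset.1 he
      exact (mem_roots'.1 this).2
    have h4 : aeval (e : ℂ) (Dl pR R) = 0 := by
      have := Polynomial.aeval_algebraMap_apply ℂ e (Dl pR R)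
      rw [Complex.coe_algebraMap] at this
      rw [this, Polynomial.coe_aeval_eq_eval, h3, Complex.ofReal_zero]
    rw [h4, h2, Complex.ofReal_zero, sub_zero, Finset.prod_eq_zero_iff] at h1
    obtain ⟨i, _, hi⟩ := h1
    refine ⟨i, ?_⟩
    have := sub_eq_zero.1 hi
    exact_mod_cast this.symm
  have hcard : ((rts (Dl pR R)).filter (fun e => lo ≤ e ∧ e ≤ hi)).card ≤
      Fintype.card {i : Fin R // lo ≤ ev i ∧ ev i ≤ hi} := by
    have h1 : (rts (Dl pR R)).filter (fun e => lo ≤ e ∧ e ≤ hi) ⊆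
        Finset.univ.image (fun i : {i : Fin R // lo ≤ ev i ∧ ev i ≤ hi} => ev i.1) := by
      intro e he
      obtain ⟨he1, he2⟩ := Finset.mem_filter.1 he
      obtain ⟨i, rfl⟩ := hroot e he1
      exact Finset.mem_image.2 ⟨⟨i, he2⟩, Finset.mem_univ _, rfl⟩
    exact (Finset.card_le_card h1).trans Finset.card_image_le
  have h1 := count_aux hB4 hC1 C0 hC0 px x pR R hcx hx hdist lo hi hlh hone u ev hEB
  have h2 : (((rts (Dl pR R)).filter (fun e => lo ≤ e ∧ e ≤ hi)).card : ℝ) ≤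
      3 * ((R / x : ℕ) : ℝ) + x := by
    have := hcard.trans h1
    exact_mod_cast this
  refine h2.trans ?_
  have h3 : ((R / x : ℕ) : ℝ) ≤ R / x := Nat.cast_div_le
  have h4 : (x : ℝ) ≤ C0 * R / x := by
    rw [le_div_iff₀ hxpos]
    nlinarith
  calc 3 * ((R / x : ℕ) : ℝ) + x ≤ 3 * (R / x) + C0 * R / x := by linarith
    _ = (3 + C0) * R / x := by ring

end Pool.Agent.H18.AM
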