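import Pool.Agent.H18.AM.M3a

/-!
Module M3 of MP_29bb0a_mp: number of eigenvalues near the centre of a band.
-/

open Polynomial
open scoped ComplexConjugate

noncomputable section

namespace Pool.Agent.H18.AM

open Pool.Agent.H98.AM

section proj

variable {H : Type} [NormedAddCommGroup H] [InnerProductSpace ℂ H] {ι : Type} [Fintype ι]

open Classical in
lemma pj_norm (u : OrthonormalBasis ι ℂ H) (ev : ι → ℝ) (S : Set ℝ) (f : H) :
    ‖pj u ev S f‖ ^ 2 = ∑ i, if ev i ∈ S then ‖inner ℂ (u i) f‖ ^ 2 else 0 := by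
  rw [← u.sum_sq_norm_inner_right]
  refine Finset.sum_congr rfl fun i _ => ?_
  have h1 : inner ℂ (u i) (pj u ev S f) = if ev i ∈ S then inner ℂ (u i) f else 0 := by
    unfold pj
    rw [inner_sum, Finset.sum_eq_single i]
    · split_ifs with h
      · rw [inner_smul_right, u.inner_eq_one, mul_one]
      · rw [inner_zero_right]
    · intro j _ hj
      split_ifs with h
      · rw [inner_smul_right, u.inner_eq_zero (Ne.symm hj), mul_zero]
      · rw [inner_zero_right]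
    · intro hi
      exact absurd (Finset.mem_univ i) hi
  rw [h1]
  split_ifs <;> simp

/-- Bessel: a family of vectors which is Bessel against every vector -/
lemma bessel_win {κ : Type} [Fintype κ] (u : OrthonormalBasis ι ℂ H) (ev : ι → ℝ) (E d : ℝ)
    (Φ : κ → H) (hΦ : ∀ w : H, ∑ i, ‖inner ℂ w (Φ i)‖ ^ 2 ≤ ‖w‖ ^ 2) (I : Finset κ) :
    ∑ i ∈ I, ‖pj u ev (win E d) (Φ i)‖ ^ 2 ≤ (Nat.card {k // |ev k - E| ≤ d} : ℝ) := by
  classical
  have h1 : ∀ i, ‖pj u ev (win E d) (Φ i)‖ ^ 2 =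
      ∑ k ∈ Finset.univ.filter (fun k => |ev k - E| ≤ d), ‖inner ℂ (u k) (Φ i)‖ ^ 2 := by
    intro i
    rw [pj_norm, Finset.sum_filter]
    refine Finset.sum_congr rfl fun k _ => ?_
    rfl
  rw [Finset.sum_congr rfl fun i _ => h1 i, Finset.sum_comm]
  have h2 : ∀ k ∈ Finset.univ.filter (fun k => |ev k - E| ≤ d),
      ∑ i ∈ I, ‖inner ℂ (u k) (Φ i)‖ ^ 2 ≤ 1 := by
    intro k _
    have h3 := hΦ (u k)
    rw [u.norm_eq_one, one_pow] at h3
    refine le_trans ?_ h3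
    exact Finset.sum_le_sum_of_subset_of_nonneg (Finset.subset_univ _)
      fun _ _ _ => by positivity
  refine (Finset.sum_le_sum h2).trans ?_
  rw [Finset.sum_const, nsmul_eq_mul, mul_one, Nat.card_eq_fintype_card, Fintype.card_subtype]

end proj

lemma ext_smul (s : ℕ) [NeZero s] (ζ : ℂ) (c : ℂ) (f : Rg s) (n : ℤ) :
    ext s ζ (c • f : Rg s) n = c * ext s ζ f n := by
  unfold Pool.Agent.H98.AM.ext
  show _ * (c * f (n : ZMod s)) = _
  ring

/-- the final count -/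
lemma final_count {n L s M r bad : ℝ} {C0 J τ W : ℝ} (hs : 1 ≤ s) (hL : 0 < L) (hC0 : 1 ≤ C0)
    (hJ : 0 ≤ J) (hr : r ≤ C0 * s ^ 2) (hτ : 0 ≤ τ) (hW : W = s * τ)
    (hW1 : 1 ≤ W) (hLW : s ≤ W * L) (hM : M = 2 * (J + 6) * L)
    (hbad : bad ≤ 2 * τ * r + 2 * s + 4)
    (h : n * (L * s) ≤ M * bad + r * (M / 4 * τ + 2)) :
    n ≤ (2 * (J + 6) * (9 / 4 * C0 + 6) + 2 * C0) * W := by
  have hM0 : 0 ≤ M := by rw [hM]; positivity
  have h1 : M * bad ≤ M * (2 * τ * r + 2 * s + 4) := by gcongr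
  have h2 : M * (2 * τ * r) ≤ (2 * (J + 6) * (2 * C0)) * W * (L * s) := by
    calc M * (2 * τ * r) ≤ M * (2 * τ * (C0 * s ^ 2)) := by gcongr
      _ = _ := by rw [hM, hW]; ring
  have h3 : M * (2 * s + 4) ≤ (2 * (J + 6) * 6) * W * (L * s) := by
    have h4 : 2 * s + 4 ≤ 6 * (W * s) := by
      have : s ≤ W * s := le_mul_of_one_le_left (by linarith) hW1
      linarith
    calc M * (2 * s + 4) ≤ M * (6 * (W * s)) := by gcongr
      _ = _ := by rw [hM]; ring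
  have h4 : r * (M / 4 * τ) ≤ (2 * (J + 6) * (C0 / 4)) * W * (L * s) := by
    calc r * (M / 4 * τ) ≤ (C0 * s ^ 2) * (M / 4 * τ) := by gcongr
      _ = _ := by rw [hM, hW]; ring
  have h5 : r * 2 ≤ (2 * C0) * W * (L * s) := by
    calc r * 2 ≤ (C0 * s ^ 2) * 2 := by gcongr
      _ = 2 * C0 * s * s := by ring
      _ ≤ 2 * C0 * s * (W * L) := by gcongr
      _ = _ := by ring
  have h6 : n * (L * s) ≤ ((2 * (J + 6) * (9 / 4 * C0 + 6) + 2 * C0) * W) * (L * s) := by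
    calc n * (L * s) ≤ M * bad + r * (M / 4 * τ + 2) := h
      _ ≤ M * (2 * τ * r + 2 * s + 4) + r * (M / 4 * τ + 2) := by linarith
      _ = M * (2 * τ * r) + M * (2 * s + 4) + r * (M / 4 * τ) + r * 2 := by ring
      _ ≤ (2 * (J + 6) * (2 * C0)) * W * (L * s) + (2 * (J + 6) * 6) * W * (L * s) +
          (2 * (J + 6) * (C0 / 4)) * W * (L * s) + (2 * C0) * W * (L * s) := by linarith
      _ = _ := by ring
  exact le_of_mul_le_mul_right h6 (by positivity)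

theorem m3 (hB4 : T_B4) (hC5 : T_C5) (hC6 : T_C6) (hD7 : T_D7) (hE4 : T_E4) (hF1 : T_F1)
    (hF4 : T_F4) (hF6 : T_F6) (hG1 : T_G1) (hH6 : T_H6) (hH7 : T_H7) (hH8 : T_H8) (hH9 : T_H9)
    (hI6 : T_I6) (hJ1 : T_J1) (hK6 : T_K6) : T_M3 := by
  classical
  intro C0 hC0
  have hC0' : 0 < C0 := by linarith
  obtain ⟨J, hJ⟩ := hJ1 C0 (1 / 40) hC0 (by norm_num) (by norm_num)
  set ε0 : ℝ := 1 / (2 * Real.sqrt (J + 5)) with hε0def
  have hJ5 : (0 : ℝ) < J + 5 := by positivity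
  have hsq : 0 < Real.sqrt (J + 5) := Real.sqrt_pos.2 hJ5
  have hε0 : 0 < ε0 := by positivity
  have hε0sq : ε0 ^ 2 = 1 / (4 * (J + 5)) := by
    rw [hε0def, div_pow, mul_pow, Real.sq_sqrt hJ5.le]
    norm_num
  have hε01 : ε0 ≤ 1 := by
    have h1 : (1 : ℝ) ≤ Real.sqrt (J + 5) := by
      rw [Real.one_le_sqrt]
      have : (0 : ℝ) ≤ J := Nat.cast_nonneg _
      linarith
    rw [hε0def, div_le_one (by positivity)]
    linarith
  obtain ⟨s1, hs1⟩ := hJ ε0 hε0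
  obtain ⟨K6, hK61, hK6'⟩ := hK6 C0 hC0
  obtain ⟨s2, hs2⟩ := hH6 C0 hC0
  obtain ⟨s3, hs3⟩ := omh_aux hC5 hC6 hD7 hE4 hF4
  obtain ⟨s4, hs4⟩ := ev_pow (a := 1 / 20) (by norm_num) (C0 ^ (3 / 4 : ℝ))
  obtain ⟨s5, hs5⟩ := ev_pow (a := 7 / 400) (by norm_num) (K6 * C0 ^ (3 / 16 : ℝ))
  obtain ⟨s6, hs6⟩ := ev_pow (a := 1 / 800) (by norm_num) (32 / ε0)
  obtain ⟨s7, hs7⟩ := ev_pow (a := 39 / 40) (by norm_num) (8 * C0)
  set Kc : ℝ := 2 * (J + 6) * (9 / 4 * C0 + 6) + 2 * C0 with hKc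
  have hKc0 : 0 ≤ Kc := by positivity
  set K : ℝ := C0 + K6 + K6 ^ 4 + s1 + s2 + s3 + s4 + s5 + s6 + s7 + 3 + Kc with hK
  have hK64 : 0 ≤ K6 ^ 4 := by positivity
  have c1 : (0 : ℝ) ≤ s1 := Nat.cast_nonneg _
  have c2 : (0 : ℝ) ≤ s2 := Nat.cast_nonneg _
  have c3 : (0 : ℝ) ≤ s3 := Nat.cast_nonneg _
  have c4 : (0 : ℝ) ≤ s4 := Nat.cast_nonneg _
  have c5 : (0 : ℝ) ≤ s5 := Nat.cast_nonneg _
  have c6 : (0 : ℝ) ≤ s6 := Nat.cast_nonneg _
  have c7 : (0 : ℝ) ≤ s7 := Nat.cast_nonneg _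
  refine ⟨K, by linarith, ?_⟩
  intro px x py y ps s pr r _ _ ι _ u ev mu hadj1 hadj2 hadj3 hKx hEB hmu hhw e he hom hNH hlight
  have hx3 : (3 : ℝ) ≤ x := by linarith
  have hx0 : (0 : ℝ) < x := by linarith
  have hsN : 0 < s := Nat.pos_of_ne_zero (NeZero.ne s)
  have hrN : 0 < r := Nat.pos_of_ne_zero (NeZero.ne r)
  have hs0 : (0 : ℝ) < s := by exact_mod_cast hsN
  have hr0 : (0 : ℝ) < r := by exact_mod_cast hrN
  have hy0 : (0 : ℝ) < y := by
    have h1 := hadj1.low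
    have h2 : (0 : ℝ) < C0 * y := lt_of_lt_of_le (by positivity) h1
    exact (pos_iff_pos_of_mul_pos h2).1 hC0'
  -- `s` is large
  have hxs : (x : ℝ) ≤ s := by
    have h1 : (x : ℝ) ^ 4 ≤ C0 ^ 3 * s := by
      calc (x : ℝ) ^ 4 = (x ^ 2) ^ 2 := by ring
        _ ≤ (C0 * y) ^ 2 := by have := hadj1.low; gcongr
        _ = C0 ^ 2 * y ^ 2 := by ring
        _ ≤ C0 ^ 2 * (C0 * s) := by have := hadj2.low; gcongr
        _ = C0 ^ 3 * s := by ring
    have h2 : C0 ≤ x := by linarith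
    have h3 : C0 ^ 3 * x ≤ C0 ^ 3 * s := by
      calc C0 ^ 3 * (x : ℝ) ≤ (x : ℝ) ^ 3 * (x : ℝ) := by gcongr
        _ = (x : ℝ) ^ 4 := by ring
        _ ≤ _ := h1
    exact le_of_mul_le_mul_left h3 (by positivity)
  have hKs : K ≤ s := hKx.trans hxs
  have hs3' : 3 ≤ s := by
    have : (3 : ℝ) ≤ s := by linarith
    exact_mod_cast this
  have hsbig : (3 : ℝ) ≤ s := by exact_mod_cast hs3'
  have g1 : s1 ≤ s := by
    have : (s1 : ℝ) ≤ s := by linarith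
    exact_mod_cast this
  have g2 : s2 ≤ s := by
    have : (s2 : ℝ) ≤ s := by linarith
    exact_mod_cast this
  have g3 : s3 ≤ s := by
    have : (s3 : ℝ) ≤ s := by linarith
    exact_mod_cast this
  have g4 := hs4 s (by
    have : (s4 : ℝ) ≤ s := by linarith
    exact_mod_cast this)
  have g5 := hs5 s (by
    have : (s5 : ℝ) ≤ s := by linarith
    exact_mod_cast this)
  have g6 := hs6 s (by
    have : (s6 : ℝ) ≤ s := by linarith
    exact_mod_cast this)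
  have g7 := hs7 s (by
    have : (s7 : ℝ) ≤ s := by linarith
    exact_mod_cast this)
  have hcop : IsCoprime ps (s : ℤ) := hadj3.cop
  have hompos : 0 < om (Dl ps s) e := (hC6 ps s hcop hs3').2.2.2 e he
  have hom1 : om (Dl ps s) e ≤ 1 / s := by
    rw [← (hC6 ps s hcop hs3').2.2.1]
    exact Finset.single_le_sum (f := fun e => om (Dl ps s) e)
      (fun e' he' => ((hC6 ps s hcop hs3').2.2.2 e' he').le) he
  have he4 : |e| ≤ 4 := (hC6 ps s hcop hs3').2.1 e he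
  set e1 := (s : ℝ) ^ (-(1 / 800) : ℝ) * om (Dl ps s) e with he1
  have hpow1 : (s : ℝ) ^ (-(1 / 800) : ℝ) ≤ 1 :=
    Real.rpow_le_one_of_one_le_of_nonpos (by linarith) (by norm_num)
  have he1pos : 0 < e1 := by positivity
  have he1om : e1 ≤ om (Dl ps s) e := by
    rw [he1]
    exact mul_le_of_le_one_left hompos.le hpow1
  have he1low2 : (s : ℝ) ^ (-(1 / 800) + (-2 - 1 / 80) : ℝ) ≤ e1 := by
    rw [Real.rpow_add hs0, he1]
    gcongr
  have he1low : (s : ℝ) ^ (-(21 / 10) : ℝ) ≤ e1 :=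
    (Real.rpow_le_rpow_of_exponent_le (by linarith) (by norm_num)).trans he1low2
  -- the comparison ring
  set L := ⌈(s : ℝ) ^ (1 / 40 : ℝ)⌉₊ with hL
  have hpow40 : 1 ≤ (s : ℝ) ^ (1 / 40 : ℝ) := Real.one_le_rpow (by linarith) (by norm_num)
  have hL0 : (s : ℝ) ^ (1 / 40 : ℝ) ≤ L := Nat.le_ceil _
  have hL1r : (1 : ℝ) ≤ L := hpow40.trans hL0
  have hL1 : 1 ≤ L := by exact_mod_cast hL1r
  have hLup : (L : ℝ) ≤ 2 * (s : ℝ) ^ (1 / 40 : ℝ) := by
    have := (Nat.ceil_lt_add_one (show 0 ≤ (s : ℝ) ^ (1 / 40 : ℝ) by positivity)).le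
    linarith
  have hMne : NeZero (2 * (J + 6) * L) := ⟨by positivity⟩
  set M := 2 * (J + 6) * L with hM
  have h4Ls : 2 * (0 + 2) * L * s ≤ r := by
    have h1 : 4 * (L : ℝ) * s ≤ r := by
      have h2 : 4 * (L : ℝ) * s * C0 ≤ r * C0 := by
        calc 4 * (L : ℝ) * s * C0 ≤ 4 * (2 * (s : ℝ) ^ (1 / 40 : ℝ)) * s * C0 := by gcongr
          _ = (8 * C0) * ((s : ℝ) ^ (1 / 40 : ℝ) * s) := by ring
          _ ≤ (s : ℝ) ^ (39 / 40 : ℝ) * ((s : ℝ) ^ (1 / 40 : ℝ) * s) := by gcongr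
          _ = ((s : ℝ) ^ (39 / 40 : ℝ) * (s : ℝ) ^ (1 / 40 : ℝ)) * s := by ring
          _ = s ^ 2 := by
              rw [← Real.rpow_add hs0]
              norm_num
              ring
          _ ≤ C0 * r := hadj3.low
          _ = r * C0 := by ring
      exact le_of_mul_le_mul_right h2 hC0'
    have h2 : 2 * (0 + 2) * (L : ℝ) * s ≤ r := by linarith
    exact_mod_cast h2
  have h6Ls : 6 * L * s ≤ M * s := by
    rw [hM]
    have : 6 ≤ 2 * (J + 6) := by omega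
    gcongr
  -- the phases
  have hdist : |(pr / r : ℝ) - ps / s| ≤ C0 / s ^ 3 := adj_dist hadj3 hsN hrN
  have hph : ∀ a : ℕ, ∃ (o : ℕ) (θ : ℝ) (m : ℤ), o < s ∧ |θ| ≤ 1 / s ∧
      (((a : ℕ) : ℤ) + o : ℝ) * (pr / r) + 1 / (2 * r) = θ + m := fun a =>
    hs2 ps s (pr / r) (1 / (2 * r)) g2 hcop hdist a
  choose o θ m ho hθ hm using hph
  have hm' : ∀ a : ℕ, (((a + o a : ℕ) : ℤ) : ℝ) * (pr / r) + 1 / (2 * r) = θ a + m a := by
    intro a
    rw [← hm a]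
    push_cast
    ring
  have hUex : ∀ a : ℕ, ∃ (U : OrthonormalBasis (Fin (M * s)) ℂ (Rg (M * s)))
      (EV : Fin (M * s) → ℝ), IsEB (Tr (ps / s) (θ a) (M * s)) U EV := fun a =>
    (hB4 (M * s) (rb (ps / s) (θ a) (M * s))).1
  choose U EV hUE using hUex
  set ψ : ℕ → ι → ℤ → ℂ := fun a i k => ext r Complex.I (u i) (((a + o a : ℕ) : ℤ) + k) with hψ
  have hlop : ∀ a i n, lop (pr / r) (θ a) (ψ a i) n = ev i * ψ a i n := by
    intro a i n
    have h1 := hH7 (pr / r) (1 / (2 * r)) (θ a) ((a + o a : ℕ) : ℤ) (m a) (hm' a)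
      (ext r Complex.I (u i)) n
    have h2 : lop (pr / r) (θ a) (ψ a i) n = lop (pr / r) (1 / (2 * r))
        (ext r Complex.I (u i)) (((a + o a : ℕ) : ℤ) + n) := h1
    rw [h2, hF1 pr r _ Complex.I (u i) _ (by simp), hEB i, ext_smul]
  -- the indices
  set I : Finset ι := Finset.univ.filter
    (fun i => |ev i - e| ≤ 8 * (s : ℝ) ^ (-(1 / 400) : ℝ) * om (Dl ps s) e) with hI
  have hIcard : (Nat.card {i // |ev i - e| ≤ 8 * (s : ℝ) ^ (-(1 / 400) : ℝ) * om (Dl ps s) e} : ℝ)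
      = I.card := by
    rw [Nat.card_eq_fintype_card, Fintype.card_subtype]
  rw [hIcard]
  -- local comparison
  have hloc : ∀ a, ∀ i ∈ I, ‖pj (U a) (EV a) (wout e e1) (cut s L 0 (ψ a i))‖ ≤
      ε0 * ‖(cut s L (J + 2) (ψ a i) : Rg (M * s))‖ := by
    intro a i hi
    have hi' : |ev i - e| ≤ 8 * (s : ℝ) ^ (-(1 / 400) : ℝ) * om (Dl ps s) e :=
      (Finset.mem_filter.1 hi).2
    have hev : |ev i - e| ≤ ε0 / 4 * e1 := by
      refine hi'.trans ?_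
      have h1 : (s : ℝ) ^ (-(1 / 400) : ℝ) = (s : ℝ) ^ (-(1 / 800) : ℝ) *
          ((s : ℝ) ^ (1 / 800 : ℝ))⁻¹ := by
        rw [← Real.rpow_neg hs0.le, ← Real.rpow_add hs0]
        norm_num
      have h2 : ((s : ℝ) ^ (1 / 800 : ℝ))⁻¹ ≤ ε0 / 32 := by
        have := inv_anti₀ (by positivity) g6
        rwa [inv_div] at this
      rw [h1, he1]
      calc 8 * ((s : ℝ) ^ (-(1 / 800) : ℝ) * ((s : ℝ) ^ (1 / 800 : ℝ))⁻¹) * om (Dl ps s) e
          ≤ 8 * ((s : ℝ) ^ (-(1 / 800) : ℝ) * (ε0 / 32)) * om (Dl ps s) e := by gcongr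
        _ = ε0 / 4 * ((s : ℝ) ^ (-(1 / 800) : ℝ) * om (Dl ps s) e) := by ring
    have hv0 : 0 ≤ K6 * (x : ℝ) ^ (-(1 / 4) : ℝ) := by positivity
    have hx14 : (x : ℝ) ^ (-(1 / 4) : ℝ) ≤ 1 / K6 := by
      have h1 : K6 ≤ (x : ℝ) ^ (1 / 4 : ℝ) := by
        have h2 : K6 ^ 4 ≤ x := by linarith
        calc K6 = (K6 ^ 4) ^ (1 / 4 : ℝ) := by
              rw [← Real.rpow_natCast, ← Real.rpow_mul (by linarith)]
              norm_num
          _ ≤ _ := Real.rpow_le_rpow hK64 h2 (by norm_num)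
      rw [Real.rpow_neg hx0.le, ← one_div]
      exact one_div_le_one_div_of_le (by linarith) h1
    refine hs1 ps s L M (pr / r) (θ a) e (ev i) (ψ a i) (Fin (M * s)) (U a) (EV a) e1
      ((y : ℝ) ^ (-(3 / 2) : ℝ)) (K6 * (x : ℝ) ^ (-(1 / 4) : ℝ)) g1 hcop hL hM hdist (hθ a)
      (by linarith) (hlop a i) (hUE a) he1low (he1om.trans hom1) ?_ ?_ hv0 ?_ ?_ ?_ ?_ hev ?_
    · exact rp1 hC0' hs0 hy0 hadj2.low g4
    · have : (y : ℝ) ^ (-(3 / 2) : ℝ) ≤ 1 := by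
        apply Real.rpow_le_one_of_one_le_of_nonpos _ (by norm_num)
        have : (0 : ℕ) < y := by exact_mod_cast hy0
        exact_mod_cast this
      linarith
    · calc K6 * (x : ℝ) ^ (-(1 / 4) : ℝ) ≤ K6 * (1 / K6) := by gcongr
        _ = 1 := by field_simp
        _ ≤ 2 := by norm_num
    · have h1 : (s : ℝ) ≤ C0 ^ 3 * x ^ 4 := by
        calc (s : ℝ) ≤ C0 * y ^ 2 := hadj2.upp
          _ ≤ C0 * (C0 * x ^ 2) ^ 2 := by have := hadj1.upp; gcongr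
          _ = _ := by ring
      have h2 := rp2 hC0' hs0 hx0 h1
      have h3 : e1 * (s : ℝ) ^ (-(1 / 40 / 4) : ℝ) ≥
          (s : ℝ) ^ (-(1 / 800) + (-2 - 1 / 80) : ℝ) * (s : ℝ) ^ (-(1 / 40 / 4) : ℝ) := by
        gcongr
      refine le_trans ?_ h3
      rw [← Real.rpow_add hs0]
      calc (s : ℝ) ^ (-2 + 1 / 40 : ℝ) * (K6 * (x : ℝ) ^ (-(1 / 4) : ℝ))
          ≤ (s : ℝ) ^ (-2 + 1 / 40 : ℝ) * (K6 * (C0 ^ (3 / 16 : ℝ) * (s : ℝ) ^ (-(1 / 16) : ℝ))) := by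
            gcongr
        _ = (K6 * C0 ^ (3 / 16 : ℝ)) * ((s : ℝ) ^ (-2 + 1 / 40 : ℝ) * (s : ℝ) ^ (-(1 / 16) : ℝ)) := by
            ring
        _ ≤ (s : ℝ) ^ (7 / 400 : ℝ) * ((s : ℝ) ^ (-2 + 1 / 40 : ℝ) * (s : ℝ) ^ (-(1 / 16) : ℝ)) := by
            gcongr
        _ = (s : ℝ) ^ (-(1 / 800) + (-2 - 1 / 80) + -(1 / 40 / 4) : ℝ) := by
            rw [← Real.rpow_add hs0, ← Real.rpow_add hs0]
            norm_num
    · exact hK6' px x py y ps s M (θ a) e (Fin (M * s)) (U a) (EV a) hadj1 hadj2 (by linarith)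
        hNH (hUE a)
    · exact hs3 ps s M (θ a) mu (Fin (M * s)) (U a) (EV a) g3 hcop hs3' (hθ a) (hUE a) hmu hhw e he
        hom hlight
    · refine hev.trans ?_
      have : ε0 / 4 ≤ 1 := by linarith
      calc ε0 / 4 * e1 ≤ 1 * e1 := by gcongr
        _ = e1 := one_mul _
  -- mass inside the window
  have hmass : ∀ i ∈ I, (L : ℝ) * s ≤ ∑ a ∈ Finset.range r,
      ‖pj (U a) (EV a) (win e e1) (cut s L 0 (ψ a i))‖ ^ 2 := by
    intro i hi
    have hui : ‖u i‖ = 1 := u.norm_eq_one i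
    have h1 := (hH8 s L 0 r (M * s) Complex.I (u i) o (by omega) hL1 (by simp) ho h6Ls).1
    have h2 := (hH8 s L (J + 2) r (M * s) Complex.I (u i) o (by omega) hL1 (by simp) ho h6Ls).2
    rw [hui, one_pow, mul_one] at h1 h2
    have h3 : ∀ a ∈ Finset.range r, ‖(cut s L 0 (ψ a i) : Rg (M * s))‖ ^ 2 -
        ε0 ^ 2 * ‖(cut s L (J + 2) (ψ a i) : Rg (M * s))‖ ^ 2 ≤
        ‖pj (U a) (EV a) (win e e1) (cut s L 0 (ψ a i))‖ ^ 2 := by
      intro a _
      have hG := hG1 (Rg (M * s)) (Fin (M * s)) (Tr (ps / s) (θ a) (M * s)) (U a) (EV a) (hUE a)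
      have h4 := hG.2.2.2.2.1 (win e e1) (cut s L 0 (ψ a i))
      rw [hG.2.2.2.2.2.2.2.2.2 e e1] at h4
      have h5 : ‖pj (U a) (EV a) (wout e e1) (cut s L 0 (ψ a i))‖ ^ 2 ≤
          ε0 ^ 2 * ‖(cut s L (J + 2) (ψ a i) : Rg (M * s))‖ ^ 2 := by
        rw [← mul_pow]
        have := hloc a i hi
        gcongr
      linarith
    have h4 := Finset.sum_le_sum h3
    rw [Finset.sum_sub_distrib, ← Finset.mul_sum] at h4
    refine le_trans ?_ h4
    have h5 : ε0 ^ 2 * ∑ a ∈ Finset.range r, ‖(cut s L (J + 2) (ψ a i) : Rg (M * s))‖ ^ 2 ≤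
        ε0 ^ 2 * (2 * (((J + 2 : ℕ) : ℝ) + 3) * L * s) := by
      gcongr
    have h6 : ε0 ^ 2 * (2 * (((J + 2 : ℕ) : ℝ) + 3) * L * s) = L * s / 2 := by
      rw [hε0sq]
      push_cast
      field_simp
      ring
    have h7 : (2 : ℝ) * L * s ≤ ∑ a ∈ Finset.range r, ‖(cut s L 0 (ψ a i) : Rg (M * s))‖ ^ 2 := h1
    have h8 : (0 : ℝ) ≤ L * s := by positivity
    linarith
  -- counting
  set B : ℝ := (M : ℝ) / 4 * (s : ℝ) ^ (-(1 / 1600) : ℝ) + 2 with hB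
  set bad : Finset ℕ := (Finset.range r).filter
    (fun a => ∃ k : ℤ, |s * θ a - 0 - k| ≤ (s : ℝ) ^ (-(1 / 1600) : ℝ)) with hbad
  have hcnt : ∀ a ∈ Finset.range r, (Nat.card {k // |EV a k - e| ≤ e1} : ℝ) ≤
      (if a ∈ bad then (M : ℝ) else 0) + B := by
    intro a ha
    have hF := hF6 ps s M (θ a) (Fin (M * s)) (U a) (EV a) hcop hs3' (hUE a) e he e1 he1pos.le
      (by linarith)
    split_ifs with hb
    · have h1 : (Nat.card {k // |EV a k - e| ≤ e1} : ℝ) ≤ M := by exact_mod_cast hF.1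
      have h2 : 0 ≤ B := by positivity
      linarith
    · have hb' : ∀ k : ℤ, (s : ℝ) ^ (-(1 / 1600) : ℝ) < |s * θ a - k| := by
        intro k
        by_contra hcon
        push Not at hcon
        exact hb (Finset.mem_filter.2 ⟨ha, k, by rw [sub_zero]; exact hcon⟩)
      have h1 := sine_lower hb'
      have h2 : 0 < 4 * (s : ℝ) ^ (-(1 / 1600) : ℝ) := by positivity
      have h3 := hF.2 (lt_of_lt_of_le h2 h1)
      rw [zero_add]
      refine h3.trans ?_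
      rw [hB]
      have h4 : (M : ℝ) * e1 / (om (Dl ps s) e * ‖1 - ex (s * θ a)‖) ≤
          M / 4 * (s : ℝ) ^ (-(1 / 1600) : ℝ) := by
        rw [div_le_iff₀ (mul_pos hompos (lt_of_lt_of_le h2 h1)), he1]
        have h5 : (s : ℝ) ^ (-(1 / 800) : ℝ) =
            (s : ℝ) ^ (-(1 / 1600) : ℝ) * (s : ℝ) ^ (-(1 / 1600) : ℝ) := by
          rw [← Real.rpow_add hs0]
          norm_num
        rw [h5]
        calc (M : ℝ) * ((s : ℝ) ^ (-(1 / 1600) : ℝ) * (s : ℝ) ^ (-(1 / 1600) : ℝ) *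
              om (Dl ps s) e)
            = M / 4 * (s : ℝ) ^ (-(1 / 1600) : ℝ) * (om (Dl ps s) e *
              (4 * (s : ℝ) ^ (-(1 / 1600) : ℝ))) := by ring
          _ ≤ M / 4 * (s : ℝ) ^ (-(1 / 1600) : ℝ) * (om (Dl ps s) e * ‖1 - ex (s * θ a)‖) := by
              gcongr
      linarith
  have hbadcard : (bad.card : ℝ) ≤ 2 * (s : ℝ) ^ (-(1 / 1600) : ℝ) * r + 2 * s + 4 := by
    have h1 := hI6 ps s pr r (1 / (2 * r)) 0 ((s : ℝ) ^ (-(1 / 1600) : ℝ)) o θ m (by omega)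
      (by omega) hadj3.det (by positivity) ho (fun a => by
        have := hm' a
        exact_mod_cast this)
    have h2 : Nat.card {a : ℕ // a < r ∧ ∃ k : ℤ, |s * θ a - 0 - k| ≤
        (s : ℝ) ^ (-(1 / 1600) : ℝ)} = bad.card := by
      apply Nat.subtype_card
      intro a
      rw [hbad, Finset.mem_filter, Finset.mem_range]
    rw [h2] at h1
    exact h1
  have hmain : (I.card : ℝ) * (L * s) ≤ M * bad.card + r * B := by
    calc (I.card : ℝ) * (L * s) = ∑ i ∈ I, (L : ℝ) * s := by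
          rw [Finset.sum_const, nsmul_eq_mul]
      _ ≤ ∑ i ∈ I, ∑ a ∈ Finset.range r,
          ‖pj (U a) (EV a) (win e e1) (cut s L 0 (ψ a i))‖ ^ 2 := Finset.sum_le_sum hmass
      _ = ∑ a ∈ Finset.range r, ∑ i ∈ I,
          ‖pj (U a) (EV a) (win e e1) (cut s L 0 (ψ a i))‖ ^ 2 := Finset.sum_comm
      _ ≤ ∑ a ∈ Finset.range r, (Nat.card {k // |EV a k - e| ≤ e1} : ℝ) := by
          refine Finset.sum_le_sum fun a _ => ?_
          apply bessel_win (U a) (EV a) e e1 (fun i => (cut s L 0 (ψ a i) : Rg (M * s)))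
          exact (hH9 s L 0 r (M * s) Complex.I ι u ((a + o a : ℕ) : ℤ) (by omega) hL1
            (by simp)).2.1 h4Ls
      _ ≤ ∑ a ∈ Finset.range r, ((if a ∈ bad then (M : ℝ) else 0) + B) :=
          Finset.sum_le_sum hcnt
      _ = M * bad.card + r * B := by
          rw [Finset.sum_add_distrib, Finset.sum_const, nsmul_eq_mul, Finset.card_range]
          congr 1
          rw [← Finset.sum_filter]
          have h1 : (Finset.range r).filter (fun a => a ∈ bad) = bad := by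
            ext a
            rw [Finset.mem_filter, hbad, Finset.mem_filter]
            tauto
          rw [h1, Finset.sum_const, nsmul_eq_mul, mul_comm]
  have hW : (s : ℝ) ^ (1 - 1 / 1600 : ℝ) = s * (s : ℝ) ^ (-(1 / 1600) : ℝ) := by
    rw [sub_eq_add_neg, Real.rpow_add hs0, Real.rpow_one]
  have hfin := final_count (n := (I.card : ℝ)) (L := (L : ℝ)) (s := (s : ℝ)) (M := (M : ℝ))
    (r := (r : ℝ)) (bad := (bad.card : ℝ)) (C0 := C0) (J := (J : ℝ))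
    (τ := (s : ℝ) ^ (-(1 / 1600) : ℝ)) (W := (s : ℝ) ^ (1 - 1 / 1600 : ℝ)) (by linarith)
    (by linarith) hC0 (Nat.cast_nonneg _) hadj3.upp (by positivity) hW
    (Real.one_le_rpow (by linarith) (by norm_num)) (by
      calc (s : ℝ) = (s : ℝ) ^ (1 : ℝ) := (Real.rpow_one _).symm
        _ ≤ (s : ℝ) ^ (1 - 1 / 1600 + 1 / 40 : ℝ) :=
            Real.rpow_le_rpow_of_exponent_le (by linarith) (by norm_num)
        _ = (s : ℝ) ^ (1 - 1 / 1600 : ℝ) * (s : ℝ) ^ (1 / 40 : ℝ) := Real.rpow_add hs0 _ _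
        _ ≤ (s : ℝ) ^ (1 - 1 / 1600 : ℝ) * L := by gcongr)
    (by rw [hM]; push_cast; ring) hbadcard hmain
  refine hfin.trans ?_
  have h9 : Kc ≤ K := by linarith
  gcongr

end Pool.Agent.H18.AM
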