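import Pool.Agent.H18.AM.I1

/-!
Module M3 of MP_29bb0a_mp, preparations: powers, adjacency, local density of states.
-/

open Polynomial
open scoped ComplexConjugate

noncomputable section

namespace Pool.Agent.H18.AM

open Pool.Agent.H98.AM

lemma ev_pow {a : ℝ} (ha : 0 < a) (C : ℝ) : ∃ s0 : ℕ, ∀ s : ℕ, s0 ≤ s → C ≤ (s : ℝ) ^ a := by
  have h := (tendsto_rpow_atTop ha).comp tendsto_natCast_atTop_atTop
  obtain ⟨s0, hs0⟩ := Filter.eventually_atTop.1 (h.eventually_ge_atTop C)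
  exact ⟨s0, hs0⟩

/-- the level `y` window is large enough -/
lemma rp1 {C0 s y : ℝ} (hC0 : 0 < C0) (hs : 0 < s) (hy : 0 < y) (h : y ^ 2 ≤ C0 * s)
    (h2 : C0 ^ (3 / 4 : ℝ) ≤ s ^ (1 / 20 : ℝ)) :
    s ^ (-(4 / 5) : ℝ) ≤ y ^ (-(3 / 2) : ℝ) := by
  have h3 : y ^ (-(3 / 2) : ℝ) = (y ^ 2) ^ (-(3 / 4) : ℝ) := by
    rw [← Real.rpow_natCast, ← Real.rpow_mul hy.le]
    norm_num
  rw [h3]
  have h4 : (C0 * s) ^ (-(3 / 4) : ℝ) ≤ (y ^ 2) ^ (-(3 / 4) : ℝ) :=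
    Real.rpow_le_rpow_of_nonpos (by positivity) h (by norm_num)
  refine le_trans ?_ h4
  rw [Real.mul_rpow hC0.le hs.le, show (-(4 / 5) : ℝ) = -(1 / 20) + -(3 / 4) by norm_num,
    Real.rpow_add hs]
  have h5 : s ^ (-(1 / 20) : ℝ) ≤ C0 ^ (-(3 / 4) : ℝ) := by
    rw [Real.rpow_neg hs.le, Real.rpow_neg hC0.le]
    exact inv_anti₀ (by positivity) h2
  have := Real.rpow_nonneg hs.le (-(3 / 4) : ℝ)
  gcongr

lemma rp2 {C0 s x : ℝ} (hC0 : 0 < C0) (hs : 0 < s) (hx : 0 < x) (h : s ≤ C0 ^ 3 * x ^ 4) :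
    x ^ (-(1 / 4) : ℝ) ≤ C0 ^ (3 / 16 : ℝ) * s ^ (-(1 / 16) : ℝ) := by
  have h3 : x ^ (-(1 / 4) : ℝ) = (x ^ 4) ^ (-(1 / 16) : ℝ) := by
    rw [← Real.rpow_natCast, ← Real.rpow_mul hx.le]
    norm_num
  have h4 : (C0 ^ 3) ^ (-(1 / 16) : ℝ) = C0 ^ (-(3 / 16) : ℝ) := by
    rw [← Real.rpow_natCast, ← Real.rpow_mul hC0.le]
    norm_num
  have h5 : (C0 ^ 3 * x ^ 4) ^ (-(1 / 16) : ℝ) ≤ s ^ (-(1 / 16) : ℝ) :=
    Real.rpow_le_rpow_of_nonpos hs h (by norm_num)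
  rw [Real.mul_rpow (by positivity) (by positivity), h4, ← h3, Real.rpow_neg hC0.le] at h5
  have h6 : 0 < C0 ^ (3 / 16 : ℝ) := by positivity
  calc x ^ (-(1 / 4) : ℝ) = C0 ^ (3 / 16 : ℝ) * ((C0 ^ (3 / 16 : ℝ))⁻¹ * x ^ (-(1 / 4) : ℝ)) := by
        rw [← mul_assoc, mul_inv_cancel₀ h6.ne', one_mul]
    _ ≤ C0 ^ (3 / 16 : ℝ) * s ^ (-(1 / 16) : ℝ) := by gcongr

lemma adj_dist {C0 : ℝ} {p : ℤ} {s : ℕ} {p' : ℤ} {r : ℕ} (h : Adj C0 p s p' r) (hs : 0 < s)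
    (hr : 0 < r) : |(p' / r : ℝ) - p / s| ≤ C0 / s ^ 3 := by
  have hs' : (0 : ℝ) < s := by exact_mod_cast hs
  have hr' : (0 : ℝ) < r := by exact_mod_cast hr
  have h1 : (p' / r : ℝ) - p / s = -((p * r - p' * s : ℤ) : ℝ) / (r * s) := by
    push_cast
    field_simp
    ring
  rw [h1, abs_div, abs_neg, ← Int.cast_abs, h.det, Int.cast_one, abs_of_pos (by positivity),
    div_le_div_iff₀ (by positivity) (by positivity)]
  have := h.low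
  nlinarith [mul_le_mul_of_nonneg_right this hs'.le]

/-- lower bound for the distance of phases -/
lemma sine_lower {t τ : ℝ} (h : ∀ k : ℤ, τ < |t - k|) : 4 * τ ≤ ‖1 - ex t‖ := by
  have h0 := h (round t)
  set v := t - round t with hv
  have hv2 : |v| ≤ 1 / 2 := abs_sub_round t
  have h1 : ex t = ex v := by
    have : t = v + ((round t : ℤ) : ℝ) := by rw [hv]; ring
    rw [this, ex_add, ex_int, mul_one]
  have h2 : ‖1 - ex v‖ = 2 * |Real.sin (Real.pi * v)| := by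
    have h3 := Complex.norm_exp_I_mul_ofReal_sub_one (2 * Real.pi * v)
    rw [norm_sub_rev]
    have h4 : ex v = Complex.exp (Complex.I * ((2 * Real.pi * v : ℝ) : ℂ)) := by
      unfold ex
      congr 1
      push_cast
      ring
    rw [h4, h3, Real.norm_eq_abs, abs_mul, abs_two]
    congr 3
    ring
  rw [h1, h2]
  have h3 : 2 * |v| ≤ |Real.sin (Real.pi * v)| := by
    have h4 : |Real.sin (Real.pi * v)| = Real.sin (Real.pi * |v|) := by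
      rcases abs_cases v with ⟨h5, h6⟩ | ⟨h5, h6⟩
      · rw [h5, abs_of_nonneg]
        apply Real.sin_nonneg_of_nonneg_of_le_pi (by have := Real.pi_pos; positivity)
        have := Real.pi_pos
        nlinarith
      · rw [h5, mul_neg, Real.sin_neg, abs_of_nonpos]
        have h7 : 0 ≤ Real.sin (Real.pi * (-v)) := by
          apply Real.sin_nonneg_of_nonneg_of_le_pi
          · have := Real.pi_pos
            nlinarith
          · have := Real.pi_pos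
            nlinarith
        rw [mul_neg, Real.sin_neg] at h7
        linarith
    rw [h4]
    have h5 := Real.mul_le_sin (x := Real.pi * |v|) (by have := Real.pi_pos; positivity) (by
      have := Real.pi_pos
      nlinarith)
    have h6 : 2 / Real.pi * (Real.pi * |v|) = 2 * |v| := by
      have := Real.pi_pos
      field_simp
    linarith
  linarith

lemma log_small : ∃ s0 : ℕ, ∀ s : ℕ, s0 ≤ s →
    1200 * (1 + 2 * (⌈Real.logb 2 ((s : ℝ) ^ 3)⌉₊ : ℝ)) ≤ (s : ℝ) ^ (3 / 800 : ℝ) := by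
  obtain ⟨s0, hs0⟩ := ev_pow (a := 1 / 400) (by norm_num) 11523600
  refine ⟨max s0 1, fun s hs => ?_⟩
  have hs1 : (1 : ℝ) ≤ s := by exact_mod_cast (le_max_right s0 1).trans hs
  have h1 := hs0 s ((le_max_left s0 1).trans hs)
  have hlog : 0 ≤ Real.log s := Real.log_nonneg hs1
  have h2 : Real.log s ≤ (s : ℝ) ^ (1 / 800 : ℝ) / (1 / 800) :=
    Real.log_le_rpow_div (by linarith) (by norm_num)
  have h3 : Real.logb 2 ((s : ℝ) ^ 3) ≤ 6 * Real.log s := by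
    rw [Real.logb, Real.log_pow, div_le_iff₀ (Real.log_pos (by norm_num))]
    have := Real.log_two_gt_d9
    push_cast
    nlinarith
  have h4 : 0 ≤ Real.logb 2 ((s : ℝ) ^ 3) :=
    Real.logb_nonneg (by norm_num) (one_le_pow₀ hs1)
  have h5 := (Nat.ceil_lt_add_one h4).le
  have h6 : (1 : ℝ) ≤ (s : ℝ) ^ (1 / 800 : ℝ) := Real.one_le_rpow hs1 (by norm_num)
  have h7 : (s : ℝ) ^ (3 / 800 : ℝ) = (s : ℝ) ^ (1 / 800 : ℝ) * (s : ℝ) ^ (1 / 400 : ℝ) := by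
    rw [← Real.rpow_add (by linarith)]
    norm_num
  rw [h7]
  calc 1200 * (1 + 2 * (⌈Real.logb 2 ((s : ℝ) ^ 3)⌉₊ : ℝ))
      ≤ 1200 * (1 + 2 * (6 * (800 * (s : ℝ) ^ (1 / 800 : ℝ)) + 1)) := by linarith
    _ ≤ (s : ℝ) ^ (1 / 800 : ℝ) * 11523600 := by linarith
    _ ≤ _ := by gcongr

lemma omh_aux (hC5 : T_C5) (hC6 : T_C6) (hD7 : T_D7) (hE4 : T_E4) (hF4 : T_F4) : ∃ s0 : ℕ,
    ∀ (p : ℤ) (s M : ℕ) [NeZero s] [NeZero M] (θ : ℝ) (mu : ℝ → ℝ) (ι : Type) [Fintype ι]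
    (u : OrthonormalBasis ι ℂ (Rg (M * s))) (ev : ι → ℝ), s0 ≤ s → IsCoprime p (s : ℤ) → 3 ≤ s →
    |θ| ≤ 1 / s → IsEB (Tr (p / s) θ (M * s)) u ev → (∀ e, 0 ≤ mu e) →
    (∀ θ : ℝ, |θ| ≤ 1 / s → ∀ e ∈ rts (Dl p s), hw p s θ e ≤ mu e) →
    ∀ e ∈ rts (Dl p s), (s : ℝ) ^ (-2 - 1 / 80 : ℝ) ≤ om (Dl p s) e →
    (∀ d, (s : ℝ) ^ (-(1 / 800) : ℝ) * om (Dl p s) e ≤ d →
      bm (Dl p s) mu e d ≤ (s : ℝ) ^ (1 + 1 / 80 : ℝ) * d) →
    OmH s u ev e ((s : ℝ) ^ (-(1 / 800) : ℝ) * om (Dl p s) e)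
      ((s : ℝ) ^ (1 + 3 * (1 / 40) / 4 : ℝ)) := by
  obtain ⟨s1, hs1⟩ := log_small
  obtain ⟨s2, hs2⟩ := ev_pow (a := 9 / 10) (by norm_num) 16
  refine ⟨max s1 s2, ?_⟩
  intro p s M _ _ θ mu ι _ u ev hs hcop hs3 hθ hEB hmu hhw e he hom hlight d hd f
  have hsr : (3 : ℝ) ≤ s := by exact_mod_cast hs3
  have hs0 : (0 : ℝ) < s := by linarith
  have hlog := hs1 s ((le_max_left _ _).trans hs)
  have h16 := hs2 s ((le_max_right _ _).trans hs)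
  have hompos : 0 < om (Dl p s) e := (hC6 p s hcop hs3).2.2.2 e he
  set e1 := (s : ℝ) ^ (-(1 / 800) : ℝ) * om (Dl p s) e with he1
  have he1pos : 0 < e1 := by positivity
  have hdpos : 0 < d := lt_of_lt_of_le he1pos hd
  have hroot : (Dl p s).eval e = 0 := (mem_roots'.1 (Multiset.mem_toFinset.1 he)).2
  have he4 : |e| ≤ 4 := (hC6 p s hcop hs3).2.1 e he
  -- lower bound of `e1`
  have he1low : (s : ℝ) ^ (-(21 / 10) : ℝ) ≤ e1 := by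
    calc (s : ℝ) ^ (-(21 / 10) : ℝ) ≤ (s : ℝ) ^ (-(1 / 800) + (-2 - 1 / 80) : ℝ) :=
          Real.rpow_le_rpow_of_exponent_le (by linarith) (by norm_num)
      _ = (s : ℝ) ^ (-(1 / 800) : ℝ) * (s : ℝ) ^ (-2 - 1 / 80 : ℝ) := Real.rpow_add hs0 _ _
      _ ≤ e1 := by rw [he1]; gcongr
  set k := ⌈Real.logb 2 ((s : ℝ) ^ 3)⌉₊ with hk
  have h2k : (s : ℝ) ^ 3 ≤ 2 ^ k := by
    have h1 : Real.logb 2 ((s : ℝ) ^ 3) ≤ k := Nat.le_ceil _
    have h2 := Real.rpow_le_rpow_of_exponent_le (show (1 : ℝ) ≤ 2 by norm_num) h1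
    rwa [Real.rpow_logb (by norm_num) (by norm_num) (by positivity), Real.rpow_natCast] at h2
  have h2kd : 16 ≤ 2 ^ k * d := by
    have h1 : (16 : ℝ) ≤ (s : ℝ) ^ 3 * (s : ℝ) ^ (-(21 / 10) : ℝ) := by
      rw [← Real.rpow_natCast, ← Real.rpow_add hs0]
      have : ((3 : ℕ) : ℝ) + -(21 / 10) = 9 / 10 := by norm_num
      rw [this]
      exact h16
    calc (16 : ℝ) ≤ (s : ℝ) ^ 3 * (s : ℝ) ^ (-(21 / 10) : ℝ) := h1
      _ ≤ 2 ^ k * d := by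
        have := he1low.trans hd
        gcongr
  have hF := hF4 p s M θ mu ι u ev hcop hs3 hEB (hhw θ hθ) e d (600 * (s : ℝ) ^ (1 / 400 : ℝ))
    hdpos (by positivity) (by
      intro t ht
      have ht4 : |t| ≤ 4 := by
        refine ht.trans ?_
        have : ‖(1 : ℂ) - ex (s * θ)‖ ≤ 2 := by
          refine (norm_sub_le _ _).trans ?_
          rw [norm_ex, norm_one]
          norm_num
        linarith
      have h1 := hD7 s (Dl p s) (hC5 p s hcop hs3) (by omega) e hroot e d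
        ((s : ℝ) ^ (-(1 / 800) : ℝ)) t (by positivity)
        (Real.rpow_le_one_of_one_le_of_nonpos (by linarith) (by norm_num)) hdpos
        (by rw [sub_self, abs_zero, mul_zero]; exact hdpos.le) hd ht4
      have h2 : ((s : ℝ) ^ (-(1 / 800) : ℝ)) ^ 2 = ((s : ℝ) ^ (1 / 400 : ℝ))⁻¹ := by
        rw [← Real.rpow_natCast, ← Real.rpow_mul hs0.le, ← Real.rpow_neg hs0.le]
        norm_num
      rw [h2] at h1
      have h3 : 0 < (s : ℝ) ^ (1 / 400 : ℝ) := by positivity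
      calc ‖aeval ((e : ℂ) + d * Complex.I) (Dl p s)‖
          = (s : ℝ) ^ (1 / 400 : ℝ) * (((s : ℝ) ^ (1 / 400 : ℝ))⁻¹ *
            ‖aeval ((e : ℂ) + d * Complex.I) (Dl p s)‖) := by
            rw [← mul_assoc, mul_inv_cancel₀ h3.ne', one_mul]
        _ ≤ (s : ℝ) ^ (1 / 400 : ℝ) * (600 * ‖aeval ((e : ℂ) + d * Complex.I) (Dl p s) - t‖) := by
            gcongr
        _ = _ := by ring) f
  have hE := hE4 (Dl p s) mu e d ((s : ℝ) ^ (1 + 1 / 80 : ℝ)) k hmu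
    (hC6 p s hcop hs3).2.1 (by linarith) hdpos h2kd (fun d' hd' => hlight d' (hd.trans hd'))
  refine hF.trans ?_
  have hpow : (s : ℝ) ^ (1 + 3 * (1 / 40) / 4 : ℝ) =
      (s : ℝ) ^ (1 / 400 : ℝ) * (s : ℝ) ^ (1 + 1 / 80 : ℝ) * (s : ℝ) ^ (3 / 800 : ℝ) := by
    rw [← Real.rpow_add hs0, ← Real.rpow_add hs0]
    norm_num
  have hnum : 1200 * (s : ℝ) ^ (1 / 400 : ℝ) * ((s : ℝ) ^ (1 + 1 / 80 : ℝ) * (1 + 2 * k)) ≤
      (s : ℝ) ^ (1 + 3 * (1 / 40) / 4 : ℝ) := by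
    rw [hpow]
    calc 1200 * (s : ℝ) ^ (1 / 400 : ℝ) * ((s : ℝ) ^ (1 + 1 / 80 : ℝ) * (1 + 2 * k))
        = (s : ℝ) ^ (1 / 400 : ℝ) * (s : ℝ) ^ (1 + 1 / 80 : ℝ) * (1200 * (1 + 2 * k)) := by ring
      _ ≤ _ := by gcongr
  calc 2 * d * (600 * (s : ℝ) ^ (1 / 400 : ℝ)) *
        (∑ e' ∈ rts (Dl p s), mu e' / ‖(e : ℂ) + d * Complex.I - e'‖) * ‖f‖ ^ 2
      ≤ 2 * d * (600 * (s : ℝ) ^ (1 / 400 : ℝ)) *
        ((s : ℝ) ^ (1 + 1 / 80 : ℝ) * (1 + 2 * k)) * ‖f‖ ^ 2 := by gcongr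
    _ = (1200 * (s : ℝ) ^ (1 / 400 : ℝ) * ((s : ℝ) ^ (1 + 1 / 80 : ℝ) * (1 + 2 * k))) *
        (d * ‖f‖ ^ 2) := by ring
    _ ≤ (s : ℝ) ^ (1 + 3 * (1 / 40) / 4 : ℝ) * (d * ‖f‖ ^ 2) := by gcongr
    _ = (s : ℝ) ^ (1 + 3 * (1 / 40) / 4 : ℝ) * d * ‖f‖ ^ 2 := by ring

end Pool.Agent.H18.AM
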